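import Pool.Agent.P.MP_7cb106_nt.GK.All2
import Pool.Agent.P.MP_7cb106_nt.GK.Cor11b

/-! The reduction of an admissible unitary Banach representation of `GL_2` over a `p`-adic field,
with a central character and an infinitesimal character at one embedding, has finite length. -/

set_option autoImplicit false

namespace Pool.Agent.Results.MP_22cf7a_nt.BanachFiniteLength

open Pool.Agent.P.MP_7cb106_nt.GK Filter Topology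

theorem result (p : ℕ) [Fact p.Prime] (K L B : Type) [Field K] [Algebra ℚ_[p] K]
    [FiniteDimensional ℚ_[p] K] [NormedField L] [NormedAlgebra ℚ_[p] L] [FiniteDimensional ℚ_[p] L]
    [NormedAddCommGroup B] [NormedSpace L B] [IsUltrametricDist B] [CompleteSpace B]
    (σ : K →ₐ[ℚ_[p]] L) (g : ℕ) (ρ : (⊤ : Subgroup (GL (Fin 2) K)) →* Module.End L B)
    (x : Fin g → Module.End L B) (φ : ℕ → (Fin g → ℕ) → L)
    (val : ∀ v : B, ∃ c : L, ‖v‖ = ‖c‖)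
    (iso : ∀ h v, ‖ρ h v‖ = ‖v‖)
    (cont : ∀ (v : B) (ε : ℝ), 0 < ε → ∃ l, ∀ h : (⊤ : Subgroup (GL (Fin 2) K)),
      Cong σ l h.val → ‖ρ h v - v‖ ≤ ε)
    (x_le : ∀ j v, ‖x j v‖ ≤ ‖v‖)
    (x_nil : ∀ j v, Tendsto (fun m : ℕ => (x j ^ m) v) atTop (𝓝 0))
    (x_x : ∀ i j, Commute (x i) (x j)) (x_rho : ∀ j h, Commute (x j) (ρ h))
    (adm : ∀ l, ∃ m₀ : ℕ, ∀ (m : ℕ) (v : Fin m → B), (∀ i, Fix σ ρ x l (v i)) → Orth L v → m ≤ m₀)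
    (conv : ∀ (k : ℕ) (r : ℝ), 0 < r → r < 1 → ∃ C : ℝ, ∀ β, ‖φ k β‖ * r ^ (∑ j, β j) ≤ C)
    (inf : ∀ k, 1 ≤ k → k ≤ 2 → ∀ v, An σ ρ x v →
      HasSum (fun β => φ k β • xp x β v) (Cap (Eop σ ρ) k v))
    (central : ∀ (z : (⊤ : Subgroup (GL (Fin 2) K))) (c : K),
      z.val.val = Matrix.scalar (Fin 2) c →
      ∃ a : L, ‖a‖ ≤ 1 ∧ ∀ v : B, ‖v‖ ≤ 1 → (∀ j, ‖x j v‖ < 1) → ‖ρ z v - a • v‖ < 1) :
    ∃ N : ℕ, ∀ (k : ℕ) (M : Fin (k + 1) → AddSubgroup B), StrictMono M →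
      (∀ i v, ‖v‖ < 1 → v ∈ M i) → (∀ i, ∀ v ∈ M i, ‖v‖ ≤ 1 ∧ ∀ j, ‖x j v‖ < 1) →
      (∀ i (c : L), ‖c‖ ≤ 1 → ∀ v ∈ M i, c • v ∈ M i) → (∀ i h, ∀ v ∈ M i, ρ h v ∈ M i) →
      k ≤ N :=
  cor11b all_MAIN2 all_INT all_RES all_RED all_ORT p K L B σ g ρ x φ val iso cont x_le x_nil x_x
    x_rho adm conv inf central

end Pool.Agent.Results.MP_22cf7a_nt.BanachFiniteLength
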