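import Pool.Agent.P.MP_7cb106_nt.BI.All
import Pool.Agent.P.MP_22cf7a_nt.FL.Fin

/-! Admissible smooth representations in characteristic `p` of `GL_n` over a `p`-adic field `K`,
with scalars acting by scalars and with growth exponent at most `(n - 1) [K : ℚ_p]`, have finite
length. -/

set_option autoImplicit false

namespace Pool.Agent.Results.MP_22cf7a_nt.FiniteLength

open Pool.Agent.P.MP_7cb106_nt.BI

theorem result (p : ℕ) [Fact p.Prime] (K : Type) [Field K] [Algebra ℚ_[p] K]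
    [FiniteDimensional ℚ_[p] K] [Algebra ℤ_[p] K] [IsScalarTower ℤ_[p] ℚ_[p] K] (r : ℕ)
    (F V : Type) [Field F] [CharP F p] [AddCommGroup V] [Module F V]
    (ρ : Representation F (GL (Fin (r + 1)) K) V) (Fix : ℕ → Submodule F V)
    (hFix : ∀ l v, v ∈ Fix l ↔ ∀ g : GL (Fin (r + 1)) (integralClosure ℤ_[p] K),
      (∃ X : Matrix (Fin (r + 1)) (Fin (r + 1)) (integralClosure ℤ_[p] K),
        (g : Matrix (Fin (r + 1)) (Fin (r + 1)) (integralClosure ℤ_[p] K)) =
          1 + (p : integralClosure ℤ_[p] K) ^ l • X) →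
      ρ (Matrix.GeneralLinearGroup.map (algebraMap (integralClosure ℤ_[p] K) K) g) v = v)
    (smooth : ∀ v, ∃ l, v ∈ Fix l)
    (central : ∀ (z : GL (Fin (r + 1)) K) (c : K),
      (z : Matrix (Fin (r + 1)) (Fin (r + 1)) K) = Matrix.scalar (Fin (r + 1)) c →
      ∃ a : F, ∀ v, ρ z v = a • v)
    (adm : ∀ l, FiniteDimensional F (Fix l)) (C : ℕ)
    (growth : ∀ l, Module.finrank F (Fix l) ≤ C * p ^ (Module.finrank ℚ_[p] K * r * l)) :
    IsFiniteLength (MonoidAlgebra F (GL (Fin (r + 1)) K)) ρ.asModule :=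
  Pool.Agent.P.MP_22cf7a_nt.FL.final all_WUA all_A1 all_EXH all_GR all_LDA all_SCA all_NH all_A7
    all_CORE all_INT p K r F V ρ Fix hFix smooth central adm C growth

end Pool.Agent.Results.MP_22cf7a_nt.FiniteLength
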