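import Pool.Agent.P.MP_22cf7a_nt.KD.Main

/-! The Krull dimension (Gabriel and Rentschler) of the completed group algebra, in characteristic
`p`, of a congruence subgroup of `PGL_2` over a `p`-adic order of rank `f` is `2 f + 1`. -/

set_option autoImplicit false

namespace Pool.Agent.Results.MP_22cf7a_nt.KrullDimension

open Pool.Agent.P.MP_22cf7a_nt.KD

theorem result (p : ℕ) [Fact p.Prime] (O : Type) [CommRing O] [IsDomain O] [Algebra ℤ_[p] O]
    [Module.Finite ℤ_[p] O] [Module.Free ℤ_[p] O] (e : ℕ) (he : 3 ≤ p ^ e)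
    (G : Subgroup (GL (Fin 2) O))
    (hG : ∀ g : GL (Fin 2) O, g ∈ G ↔ ∃ X : Matrix (Fin 2) (Fin 2) O,
      (g : Matrix (Fin 2) (Fin 2) O) = 1 + (p : O) ^ e • X)
    (N : ℕ → Subgroup G) [∀ l, (N l).Normal]
    (hN : ∀ (l : ℕ) (g : G), g ∈ N l ↔ ∃ (c : O) (X : Matrix (Fin 2) (Fin 2) O),
      ((g : GL (Fin 2) O) : Matrix (Fin 2) (Fin 2) O) =
        Matrix.scalar (Fin 2) c + (p : O) ^ (e + l) • X)
    (F : Type) [Field F] [CharP F p] (k : ℕ) :
    KrullLE (Iw F N) k ↔ 2 * Module.finrank ℤ_[p] O + 1 ≤ k := by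
  obtain rfl : G = Pool.Agent.P.MP_7cb106_nt.BI.Cg O (Fin 2) ((p : O) ^ e) :=
    Subgroup.ext fun g => (hG g).trans Pool.Agent.P.MP_7cb106_nt.BI.mem_Cg.symm
  exact main he N hN k

end Pool.Agent.Results.MP_22cf7a_nt.KrullDimension
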